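import Pool.Agent.Helper14.NHG.Nhg

/-! NHB: transversality of families of partitions `Wc c` for all `c > 0`, with a loss proportional to `c`, gives
transversality of a family `W`, if `W` is on a typical event a function of `Wc c` and of an index with boundedly many
values (the bound may depend on `c`). -/

set_option autoImplicit false

namespace Pool.Agent.Helper14.NHG

open Finset Filter Topology Matrix Pool.Agent.Helper69.RK Pool.Agent.Helper31.EC Pool.Agent.Helper31.EC.Sp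
open Pool.Agent.Helper40.EL
open Pool.Agent.Helper84.MT Pool.Agent.Helper3.LF Pool.Agent.Helper59.LF Pool.Agent.Helper89.LX
open Pool.Agent.Helper48.NS Pool.Agent.Helper49.MD Pool.Agent.Helper87.NSL Pool.Agent.Helper38.NSL

noncomputable section

variable {M D : ℕ}

/-- finer partitions up to a bounded index, on a good event -/
theorem hasE_idxG {F : FSp} {Q : F.Ω → Fin M → ℝ} {κ : Type} [Fintype κ] {B : Type} [Fintype B]
    {W W' : κ → Setoid F.Ω} {e γ p : ℝ} (G : F.Ω → Prop) (β : κ → F.Ω → B)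
    (hβ : ∀ i ω ω', F.μ ω ≠ 0 → F.μ ω' ≠ 0 → G ω → G ω' → F.Z ω ω' → W' i ω ω' → β i ω = β i ω' → W i ω ω')
    (h : HasE F M D Q W e γ p) :
    HasE F M D Q W' e γ ((p - F.pb (fun ω => ¬ G ω)) / ((Fintype.card B : ℝ) ^ Fintype.card κ)) := by
  classical
  have ecard : ((Fintype.card B : ℝ) ^ Fintype.card κ) = (Fintype.card (κ → B) : ℝ) := by
    rw [Fintype.card_fun]
    push_cast
    rfl
  rw [ecard]
  obtain ⟨A, J, h1, h2, h3, h4⟩ := h
  have hsum : F.pb A ≤ F.pb (fun ω => ¬ G ω) + ∑ b : κ → B, F.pb (fun ω => (A ω ∧ G ω) ∧ (fun i => β i ω) = b) := by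
    have e1 : ∀ b : κ → B, F.pb (fun ω => (A ω ∧ G ω) ∧ (fun i => β i ω) = b) =
        ∑ ω, F.μ ω * e1_ind ((A ω ∧ G ω) ∧ (fun i => β i ω) = b) := fun b => Pool.Agent.Helper59.GR.pb_ind F _
    rw [Pool.Agent.Helper59.GR.pb_ind, Pool.Agent.Helper59.GR.pb_ind, Finset.sum_congr rfl fun b _ => e1 b,
      Finset.sum_comm, ← Finset.sum_add_distrib]
    apply Finset.sum_le_sum
    intro ω _
    rw [← Finset.mul_sum, ← mul_add]
    apply mul_le_mul_of_nonneg_left _ (F.nn ω)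
    have h0 : 0 ≤ ∑ b : κ → B, e1_ind ((A ω ∧ G ω) ∧ (fun i => β i ω) = b) := Finset.sum_nonneg fun b _ => ind_nonneg _
    by_cases hA : A ω
    · rw [e1_ind_pos hA]
      by_cases hG : G ω
      · have h5 := Finset.single_le_sum (f := fun b : κ → B => e1_ind ((A ω ∧ G ω) ∧ (fun i => β i ω) = b))
          (fun b _ => ind_nonneg _) (Finset.mem_univ (fun i => β i ω))
        have h6 : e1_ind ((A ω ∧ G ω) ∧ (fun i => β i ω) = fun i => β i ω) = 1 := e1_ind_pos ⟨⟨hA, hG⟩, rfl⟩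
        have h7 := ind_nonneg (¬ G ω)
        linarith
      · have h6 : e1_ind (¬ G ω) = 1 := e1_ind_pos hG
        linarith
    · rw [e1_ind_neg hA]
      have h7 := ind_nonneg (¬ G ω)
      linarith
  obtain ⟨b, hb⟩ : ∃ b : κ → B, (p - F.pb (fun ω => ¬ G ω)) / (Fintype.card (κ → B) : ℝ) ≤
      F.pb (fun ω => (A ω ∧ G ω) ∧ (fun i => β i ω) = b) := by
    by_contra hc0
    have hc : ∀ b : κ → B, F.pb (fun ω => (A ω ∧ G ω) ∧ (fun i => β i ω) = b) <
        (p - F.pb (fun ω => ¬ G ω)) / (Fintype.card (κ → B) : ℝ) := fun b => lt_of_not_ge fun h => hc0 ⟨b, h⟩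
    rcases isEmpty_or_nonempty (κ → B) with hE | hE
    · obtain ⟨ω, _⟩ := exists_supp F
      exact hE.false fun i => β i ω
    have hcard : (0 : ℝ) < Fintype.card (κ → B) := by exact_mod_cast Fintype.card_pos
    have h5 : ∑ b : κ → B, F.pb (fun ω => (A ω ∧ G ω) ∧ (fun i => β i ω) = b) <
        ∑ _b : κ → B, (p - F.pb (fun ω => ¬ G ω)) / (Fintype.card (κ → B) : ℝ) :=
      Finset.sum_lt_sum_of_nonempty Finset.univ_nonempty fun b _ => hc b
    rw [Finset.sum_const, Finset.card_univ, nsmul_eq_mul, mul_div_cancel₀ _ hcard.ne'] at h5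
    linarith
  set s : κ → F.Ω → Set F.Ω := fun i ω => {ω' | F.μ ω' ≠ 0 ∧ F.Z ω ω' ∧ W' i ω ω'} with hs
  set t : κ → F.Ω → Set F.Ω := fun i ω => {ω' | ω' ∈ s i ω ∧ G ω' ∧ β i ω' = b i} with ht
  obtain ⟨ω₀, _⟩ := exists_supp F
  set pick : Set F.Ω → F.Ω := fun u => if hu : u.Nonempty then hu.some else ω₀ with hpick
  have hp : ∀ u : Set F.Ω, u.Nonempty → pick u ∈ u := by
    intro u hu
    rw [hpick]
    beta_reduce
    rw [dif_pos hu]
    exact hu.some_mem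
  have hcong : ∀ i ω ω', F.Z ω ω' → W' i ω ω' → s i ω = s i ω' := by
    intro i ω ω' hZ hW
    ext τ
    exact ⟨fun ⟨a, c, d⟩ => ⟨a, F.Z.trans (F.Z.symm hZ) c, (W' i).trans ((W' i).symm hW) d⟩,
      fun ⟨a, c, d⟩ => ⟨a, F.Z.trans hZ c, (W' i).trans hW d⟩⟩
  have hcong' : ∀ i ω ω', F.Z ω ω' → W' i ω ω' → t i ω = t i ω' := by
    intro i ω ω' hZ hW
    rw [ht]
    beta_reduce
    rw [hcong i ω ω' hZ hW]
  set J' : κ → F.Ω → Matrix (Mon M D) (Mon M D) ℝ := fun i ω =>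
    if (t i ω).Nonempty then J i (pick (t i ω)) else J i (pick (s i ω)) with hJ'
  have hsn : ∀ i ω, F.μ ω ≠ 0 → (s i ω).Nonempty := fun i ω hω => ⟨ω, hω, F.Z.refl ω, (W' i).refl ω⟩
  have hJA : ∀ ω, F.μ ω ≠ 0 → G ω → (fun i => β i ω) = b → ∀ i, J' i ω = J i ω := by
    intro ω hω hG hb i
    have h5 : ω ∈ t i ω := ⟨⟨hω, F.Z.refl ω, (W' i).refl ω⟩, hG, congrFun hb i⟩
    have h6 : (t i ω).Nonempty := ⟨ω, h5⟩
    have h7 := hp _ h6
    rw [hJ']
    beta_reduce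
    rw [if_pos h6]
    obtain ⟨⟨a, c, d⟩, g, f⟩ := h7
    refine (h2 i ω _ hω a c ?_).symm
    exact hβ i ω _ hω a hG g c d ((congrFun hb i).trans f.symm)
  refine ⟨fun ω => (A ω ∧ G ω) ∧ (fun i => β i ω) = b, J', hb, ?_, ?_, ?_⟩
  · intro i ω ω' _ _ hZ hW
    rw [hJ']
    beta_reduce
    rw [hcong i ω ω' hZ hW, hcong' i ω ω' hZ hW]
  · intro i ω hω
    rw [hJ']
    beta_reduce
    by_cases h6 : (t i ω).Nonempty
    · rw [if_pos h6]
      exact h3 i _ (hp _ h6).1.1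
    · rw [if_neg h6]
      exact h3 i _ (hp _ (hsn i ω hω)).1
  · rintro ω hω ⟨⟨hA, hG⟩, hb2⟩
    have h5 := hJA ω hω hG hb2
    refine ⟨fun i j => ?_, fun i => ⟨?_, ?_⟩⟩
    · rw [h5 i, h5 j]
      exact (h4 ω hω hA).1 i j
    · rw [h5 i]
      exact ((h4 ω hω hA).2 i).1
    · have h6 := ((h4 ω hω hA).2 i).2
      have e1 : gxF F Q (J' i) ω = gxF F Q (J i) ω := by
        unfold gxF
        rw [h5 i]
      rw [e1]
      exact h6

variable {S : Sp} {κ : Type}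

/-- **NHB**, any families: partitions `Wc c`, `c > 0`, with bounded indices on typical events -/
theorem nhb_fam [Finite κ] {Q : S.VV M} (W : κ → ∀ k, Setoid (S.F k).Ω) (Wc : ℝ → κ → ∀ k, Setoid (S.F k).Ω)
    {K K' g0 : ℝ}
    (h : ∀ c e γ p : ℝ, 0 < c → c ≤ 1 → 0 < e → K * e + K' * c + g0 < γ → 0 < p →
      ∀ᶠ k in UF, ¬ HasE (S.F k) M D (Q.v k) (fun i => Wc c i k) e γ p)
    (hβ : ∀ c : ℝ, 0 < c → c ≤ 1 → ∃ (G : ∀ k, (S.F k).Ω → Prop) (L : ℕ) (β : κ → ∀ k, (S.F k).Ω → Fin L),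
      S.Typ G ∧ ∀ᶠ k in UF, ∀ i ω ω', (S.F k).μ ω ≠ 0 → (S.F k).μ ω' ≠ 0 → G k ω → G k ω' → (S.F k).Z ω ω' →
        Wc c i k ω ω' → β i k ω = β i k ω' → W i k ω ω') :
    ∀ e γ p : ℝ, 0 < e → K * e + g0 < γ → 0 < p →
      ∀ᶠ k in UF, ¬ HasE (S.F k) M D (Q.v k) (fun i => W i k) e γ p := by
  classical
  intro e γ p he hγ hp
  have _ : Fintype κ := Fintype.ofFinite κ
  obtain ⟨c, hc0, hc1, hc⟩ : ∃ c : ℝ, 0 < c ∧ c ≤ 1 ∧ K * e + K' * c + g0 < γ := by
    have h1 : 0 < γ - K * e - g0 := by linarith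
    have h2 : 0 < |K'| + 1 := by positivity
    have h3 : 0 < (γ - K * e - g0) / (2 * (|K'| + 1)) := by positivity
    refine ⟨min 1 ((γ - K * e - g0) / (2 * (|K'| + 1))), lt_min one_pos h3, min_le_left _ _, ?_⟩
    have h4 : min 1 ((γ - K * e - g0) / (2 * (|K'| + 1))) * (|K'| + 1) ≤ (γ - K * e - g0) / 2 := by
      have h5 := mul_le_mul_of_nonneg_right (min_le_right 1 ((γ - K * e - g0) / (2 * (|K'| + 1)))) h2.le
      refine h5.trans (le_of_eq ?_)
      field_simp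
    have h6 : 0 < min 1 ((γ - K * e - g0) / (2 * (|K'| + 1))) := lt_min one_pos h3
    have h7 : K' * min 1 ((γ - K * e - g0) / (2 * (|K'| + 1))) ≤ |K'| * min 1 ((γ - K * e - g0) / (2 * (|K'| + 1))) :=
      mul_le_mul_of_nonneg_right (le_abs_self _) h6.le
    nlinarith
  obtain ⟨G, L, β, hG, hb⟩ := hβ c hc0 hc1
  by_cases hL : (Fintype.card (Fin L) : ℝ) ^ Fintype.card κ = 0
  · have hL0 : L = 0 := by
      have h1 : (Fintype.card (Fin L) : ℝ) = 0 := (pow_eq_zero_iff (n := Fintype.card κ) (by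
        rcases Nat.eq_zero_or_pos (Fintype.card κ) with h0 | h0
        · rw [h0, pow_zero] at hL
          exact absurd hL one_ne_zero
        · exact h0.ne'
      )).mp hL
      rw [Fintype.card_fin] at h1
      exact_mod_cast h1
    subst hL0
    have hκ : IsEmpty κ := by
      by_contra hne
      rw [not_isEmpty_iff] at hne
      obtain ⟨i⟩ := hne
      obtain ⟨ω, _⟩ := exists_supp (S.F 0)
      exact (β i 0 ω).elim0
    exfalso
    have : Fintype.card κ = 0 := Fintype.card_eq_zero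
    rw [this, pow_zero] at hL
    exact one_ne_zero hL
  have hcard : (0 : ℝ) < (Fintype.card (Fin L) : ℝ) ^ Fintype.card κ :=
    lt_of_le_of_ne (by positivity) (Ne.symm hL)
  have hG2 : ∀ᶠ k in UF, (S.F k).pb (fun ω => ¬ G k ω) < p / 2 := hG.eventually (gt_mem_nhds (half_pos hp))
  filter_upwards [h c e γ (p / 2 / (Fintype.card (Fin L) : ℝ) ^ Fintype.card κ)
    hc0 hc1 he hc (div_pos (half_pos hp) hcard), hb, hG2] with k a b g hE
  apply a
  have h8 := hasE_idxG (W' := fun i => Wc c i k) (G k) (fun i => β i k)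
    (fun i ω ω' h1 h2 h3 h4 h5 h6 h7 => b i ω ω' h1 h2 h3 h4 h5 h6 h7) hE
  refine h8.mono le_rfl le_rfl (div_le_div_of_nonneg_right ?_ hcard.le)
  linarith

/-- **NHB** with a kernel `R` -/
theorem nhb [Finite κ] {Q : S.VV M} (R : ∀ k, Setoid (S.F k).Ω) (W : κ → ∀ k, Setoid (S.F k).Ω)
    (Wc : ℝ → κ → ∀ k, Setoid (S.F k).Ω) {K K' g0 : ℝ}
    (h : ∀ c e γ p : ℝ, 0 < c → c ≤ 1 → 0 < e → K * e + K' * c + g0 < γ → 0 < p →
      ∀ᶠ k in UF, ¬ HasE (S.F k) M D (Q.v k) (fun i => optW R (Wc c) i k) e γ p)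
    (hβ : ∀ c : ℝ, 0 < c → c ≤ 1 → ∃ (G : ∀ k, (S.F k).Ω → Prop) (L : ℕ) (β : κ → ∀ k, (S.F k).Ω → Fin L),
      S.Typ G ∧ ∀ᶠ k in UF, ∀ i ω ω', (S.F k).μ ω ≠ 0 → (S.F k).μ ω' ≠ 0 → G k ω → G k ω' → (S.F k).Z ω ω' →
        Wc c i k ω ω' → β i k ω = β i k ω' → W i k ω ω') :
    ∀ e γ p : ℝ, 0 < e → K * e + g0 < γ → 0 < p →
      ∀ᶠ k in UF, ¬ HasE (S.F k) M D (Q.v k) (fun i => optW R W i k) e γ p := by
  apply nhb_fam (Q := Q) (optW R W) (fun c => optW R (Wc c)) h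
  intro c hc0 hc1
  obtain ⟨G, L, β, hG, hb⟩ := hβ c hc0 hc1
  refine ⟨G, L + 1, fun i k ω => match i with
    | none => 0
    | some j => (β j k ω).castSucc, hG, ?_⟩
  filter_upwards [hb] with k hk i ω ω' h1 h2 h3 h4 h5 h6 h7
  cases i with
  | none => exact h6
  | some j => exact hk j ω ω' h1 h2 h3 h4 h5 h6 (Fin.castSucc_injective _ h7)

end

end Pool.Agent.Helper14.NHG
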