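import Pool.Agent.Helper14.NHG.Nhg
import Pool.Agent.Helper38.NSL.Tc3
import Pool.Agent.Helper81.MT.Trn

/-! NHG: transversality at the windows `c > 0` with a loss proportional to `c`: from volumes of forms over exact K-labels;
closure under events of extensions, truncations and slow limits. -/

set_option autoImplicit false

namespace Pool.Agent.Helper14.NHG

open Finset Filter Topology Matrix Pool.Agent.Helper69.RK Pool.Agent.Helper31.EC Pool.Agent.Helper31.EC.Sp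
open Pool.Agent.Helper40.EL
open Pool.Agent.Helper84.MT Pool.Agent.Helper3.LF Pool.Agent.Helper59.LF Pool.Agent.Helper89.LX
open Pool.Agent.Helper48.NS Pool.Agent.Helper49.MD Pool.Agent.Helper87.NSL Pool.Agent.Helper38.NSL
open Pool.Agent.Helper14.MC (vol_eq)
open Pool.Agent.Helper52.SL (cellv_chg)

noncomputable section

variable {S : Sp} {M D : ℕ} {E : ℕ → ℕ} {ι κ κ' : Type}

theorem NHC.mono {s : MSys S M E ι} {R : ∀ k, Setoid (S.F k).Ω} {V : κ → ι} {K K' L L' : ℝ}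
    (h : NHC s D R V K K') (hK : K ≤ L) (hK' : K' ≤ L') : NHC s D R V L L' := by
  intro c e γ p hc hc1 he hγ hp
  refine h c e γ p hc hc1 he (lt_of_le_of_lt ?_ hγ) hp
  have h1 := mul_le_mul_of_nonneg_right hK he.le
  have h2 := mul_le_mul_of_nonneg_right hK' hc.le
  linarith

/-- larger families of types -/
theorem NHC.ren {s : MSys S M E ι} {R : ∀ k, Setoid (S.F k).Ω} {V : κ → ι} {V' : κ' → ι} {K K' : ℝ}
    (h : NHC s D R V K K') (f : κ → κ') (hf : ∀ j, V' (f j) = V j) : NHC s D R V' K K' := by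
  intro c e γ p hc hc1 he hγ hp
  filter_upwards [h c e γ p hc hc1 he hγ hp] with k a b
  refine a (b.ren (fun o => match o with | none => none | some j => some (f j)) fun i ω ω' _ _ _ hw => ?_)
  cases i with
  | none => exact hw
  | some j =>
    have e1 : wn s c (V' (f j)) k ω ω' := by
      rw [hf]
      exact hw
    exact e1

/-- coarser kernels -/
theorem NHC.res {s : MSys S M E ι} {R R' : ∀ k, Setoid (S.F k).Ω} {V : κ → ι} {K K' : ℝ}
    (h : NHC s D R V K K') (hR : ∀ᶠ k in UF, ∀ ω ω', (S.F k).μ ω ≠ 0 → (S.F k).μ ω' ≠ 0 → (S.F k).Z ω ω' →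
      R k ω ω' → R' k ω ω') : NHC s D R' V K K' := by
  intro c e γ p hc hc1 he hγ hp
  filter_upwards [h c e γ p hc hc1 he hγ hp, hR] with k a a' b
  refine a (b.ren (fun o => o) fun i ω ω' h1 h2 h3 hw => ?_)
  cases i with
  | none => exact a' ω ω' h1 h2 h3 hw
  | some j => exact hw

/-- **EXACT MEMBERS**: volumes of forms over K-labels of the windows `c > 0` are at least `M - w c` on all events -/
theorem nhc_of_stab [Finite ι] (s : MSys S M E ι) (R : ∀ k, Setoid (S.F k).Ω) (V : κ → ι) (w : ℝ)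
    (hcov : ∀ c : ℝ, 0 < c → c ≤ 1 → ∀ i, ∃ j, Cov s c (V j) i)
    (hst : ∀ c : ℝ, 0 < c → c ≤ 1 → ∀ (A : ∀ k, (S.F k).Ω → Prop) (hA : 0 < ul (S.pr A))
      (x : ∀ k, FD ((Sp.im (Pj.id S) A).F k) (Mon M D)),
      (gaq (s.im (Pj.id S) A hA).Q D).AdfK (LC.kz (S := Sp.im (Pj.id S) A) fun k => fc (R k))
        (cndR (s.im (Pj.id S) A hA) R c) x → (M : ℝ) - w * c ≤ vol (s.im (Pj.id S) A hA).Q D x) :
    NHC s D R V (C3 M D) w := by
  intro c e γ p hc hc1 he hγ hp
  by_contra hn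
  have h1 : ∀ᶠ k in UF, HasE (S.F k) M D (s.Q.v k) (fun i => optW R (fun j => wn s c (V j)) i k) e γ p := by
    filter_upwards [UF_not hn] with k hk
    exact not_not.mp hk
  obtain ⟨A, hA, G, hG1, hG2⟩ := kform_of_hasE s R c V (hcov c hc hc1) he hp h1
  have h2 := hst c hc hc1 A hA _ hG1
  rw [vol_eq] at h2
  have h3 := vx_onG_ge hG1.1 hG2
  linarith

/-- every type covers itself -/
theorem cov_self (s : MSys S M E ι) (c : ℝ) (i : ι) : Cov s c i i := by
  have h1 : (fun k => Pool.Agent.Helper31.EC.h ((s.lf i).win c k) ((s.lf i).win c k)) = fun _ => (0 : ℝ) := by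
    funext k
    exact h_self _
  show Nul S (fun k => Pool.Agent.Helper31.EC.h ((s.lf i).win c k) ((s.lf i).win c k))
  rw [h1]
  exact Nul_zero S

theorem nhc_of_stab' [Finite ι] (s : MSys S M E ι) (R : ∀ k, Setoid (S.F k).Ω) (w : ℝ)
    (hst : ∀ c : ℝ, 0 < c → c ≤ 1 → ∀ (A : ∀ k, (S.F k).Ω → Prop) (hA : 0 < ul (S.pr A))
      (x : ∀ k, FD ((Sp.im (Pj.id S) A).F k) (Mon M D)),
      (gaq (s.im (Pj.id S) A hA).Q D).AdfK (LC.kz (S := Sp.im (Pj.id S) A) fun k => fc (R k))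
        (cndR (s.im (Pj.id S) A hA) R c) x → (M : ℝ) - w * c ≤ vol (s.im (Pj.id S) A hA).Q D x) :
    NHC s D R (fun i : ι => i) (C3 M D) w :=
  nhc_of_stab s R (fun i => i) w (fun c _ _ i => ⟨i, cov_self s c i⟩) hst

/-- EVENTS OF EXTENSIONS -/
theorem NHC.im {s : MSys S M E ι} {R : ∀ k, Setoid (S.F k).Ω} {V : κ → ι} {K K' : ℝ}
    (h : NHC s D R V K K') {T : Sp} (q : Pj T S) (A : ∀ k, (T.F k).Ω → Prop) (hA : 0 < ul (T.pr A)) :
    NHC (s.im q A hA) D R V K K' := by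
  intro c e γ p hc hc1 he hγ hp
  have hU : UB (T.pr A) := UB_of_nonneg_le (C := 1) (Eventually.of_forall fun k => (T.F k).pb_nonneg (A k))
    (Eventually.of_forall fun k => (T.F k).pb_le_one (A k))
  obtain ⟨q0, hq0, hq1⟩ : ∃ q0, 0 < q0 ∧ q0 < ul (T.pr A) := ⟨ul (T.pr A) / 2, by linarith, by linarith⟩
  filter_upwards [h c e γ (q0 * p) hc hc1 he hγ (mul_pos hq0 hp), (ul_tendsto hU).eventually (lt_mem_nhds hq1)] with k a b hE
  apply a
  have h1 : (T.F k).pb (A k) ≠ 0 := by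
    have : q0 < (T.F k).pb (A k) := b
    linarith
  have h2 := HasE.im (q.fp k) (A k) h1 (F := S.F k) (Q := s.Q.v k)
    (W := fun i => optW R (fun j => wn s c (V j)) i k) hE
  exact h2.mono le_rfl le_rfl (mul_le_mul_of_nonneg_right b.le hp.le)

/-- TRUNCATIONS -/
theorem NHC.trn {s : MSys S M E ι} {R : ∀ k, Setoid (S.F k).Ω} {V : κ → ι} {K K' : ℝ}
    (h : NHC s D R V K K') (hK : 0 ≤ K) {r : ℝ} (h0 : 0 < r) (h1 : r < 1) :
    NHC (s.trn r h0 h1.le) D R V K K' := by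
  intro c e γ p hc hc1 he hγ hp
  obtain ⟨ε, hε, hε1⟩ : ∃ ε : ℝ, 0 < ε ∧ K * (e * r + ε) + K' * (r * c) < γ * r := by
    have h2 : 0 < (γ - K * e - K' * c) * r := mul_pos (by linarith) h0
    refine ⟨(γ - K * e - K' * c) * r / (2 * (K + 1)), div_pos h2 (by linarith), ?_⟩
    have h3 : K * ((γ - K * e - K' * c) * r / (2 * (K + 1))) ≤ (γ - K * e - K' * c) * r / 2 := by
      rw [mul_div_assoc', div_le_div_iff₀ (by linarith) (by norm_num)]
      nlinarith
    nlinarith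
  have hcT : (0 : ℝ) ≤ cT M D := by
    unfold cT
    have := nn_one M D
    positivity
  have hcT2 : (0 : ℝ) ≤ cT2 M D := by
    unfold cT2 shC
    have := nn_one M D
    positivity
  have h5 : (0 : ℝ) < (2 * (D : ℝ) + 1 + 1) * (1 - r) := mul_pos (by positivity) (by linarith)
  have hrc1 : r * c ≤ 1 := by nlinarith
  filter_upwards [h (r * c) (e * r + ε) (γ * r) p (mul_pos h0 hc) hrc1 (by positivity) hε1 hp,
    (S.Sub_const hcT).eventually_le hε, (S.Sub_const hcT2).eventually_le h5] with k a b b' hE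
  apply a
  have e1 : (fun i => optW (S := S.chg S.tr r h0) R (fun j => wn (s.trn r h0 h1.le) c (V j)) i k) =
      fun i => optW R (fun j => wn s (r * c) (V j)) i k := by
    funext i
    cases i with
    | none => rfl
    | some j =>
      have e2 : ((s.lf (V j)).Y.chg S.tr r h0).cellv c k = (s.lf (V j)).Y.cellv (r * c) k :=
        cellv_chg (s.lf (V j)).Y r h0 c k
      exact congrArg (fun f => (s.lf (V j)).La k ⊓ Setoid.ker f) e2
  have hE' : HasE ((S.F k).chg ⊤ r h0) M D (s.Q.v k) (fun i => optW R (fun j => wn s (r * c) (V j)) i k) e γ p := by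
    rw [← e1]
    exact hE
  exact HasE.untrn (F := S.F k) h0 h1 hε.le (by linarith) (by linarith) hE'

/-! ### slow limits -/

/-- the window of a type, from the finite data -/
def wnO (F : FSp) (x : FMs F.Ω M ι) (c : ℝ) (i : ι) : Setoid F.Ω :=
  (x.lf i).La ⊓ Setoid.ker fun ω => cell (dlF F c) ((x.lf i).Y ω)

theorem wn_ob (s : MSys S M E ι) (c : ℝ) (i : ι) (k : ℕ) : wn s c i k = wnO (S.F k) (ob s k) c i := rfl

/-- a later window -/
theorem hasE_win [Fintype κ] (s : MSys S M E ι) (R : ∀ k, Setoid (S.F k).Ω) (V : κ → ι) {c c' : ℝ} (hc : c ≤ c')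
    {e γ p : ℝ} (k : ℕ)
    (h : HasE (S.F k) M D (s.Q.v k) (fun i => optW R (fun j => wn s c (V j)) i k) e γ p) :
    HasE (S.F k) M D (s.Q.v k) (fun i => optW R (fun j => wn s c' (V j)) i k) e γ
      (p / (Fintype.card (Fin (E 0) → Bool) : ℝ) ^ Fintype.card (Option κ)) := by
  refine hasE_idx (B := Fin (E 0) → Bool)
    (W := fun i => optW R (fun j => wn s c (V j)) i k)
    (W' := fun i => optW R (fun j => wn s c' (V j)) i k) (fun i ω => match i with
    | none => fun _ => true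
    | some j => pcell s c (V j) k ω) (fun i ω ω' h1 h2 h3 h4 h5 => ?_) h
  cases i with
  | none => exact h4
  | some j => exact wn_of_wn s hc (V j) k ω ω' h4 h5

/-- the slowness conditions -/
def trC {S : ℕ → Sp} (s : ∀ j, MSys (S j) M E ι) (R : ∀ j k, Setoid ((S j).F k).Ω) (V : κ → ι) (D : ℕ) (K K' : ℝ)
    (i j k : ℕ) : Prop :=
  ∀ q : ℚ × ℚ × ℚ × ℚ, Encodable.decode i = some q → (0 : ℝ) < q.1 → (q.1 : ℝ) ≤ 1 → (0 : ℝ) < q.2.1 →
    K * q.2.1 + K' * q.1 < q.2.2.1 → (0 : ℝ) < q.2.2.2 →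
    ¬ HasE ((S j).F k) M D ((s j).Q.v k) (fun o => optW (R j) (fun l => wn (s j) q.1 (V l)) o k) q.2.1 q.2.2.1 q.2.2.2

theorem trC_ev {S : ℕ → Sp} {s : ∀ j, MSys (S j) M E ι} {R : ∀ j k, Setoid ((S j).F k).Ω} {V : κ → ι} {K K' : ℝ}
    (h : ∀ j, NHC (s j) D (R j) V K K') (i j : ℕ) : ∀ᶠ k in UF, trC s R V D K K' i j k := by
  cases hd : (Encodable.decode i : Option (ℚ × ℚ × ℚ × ℚ)) with
  | none =>
    refine Eventually.of_forall fun k q hq => ?_
    rw [hd] at hq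
    exact absurd hq (by simp)
  | some q =>
    by_cases h1 : (0 : ℝ) < q.1 ∧ (q.1 : ℝ) ≤ 1 ∧ (0 : ℝ) < q.2.1 ∧ K * q.2.1 + K' * q.1 < q.2.2.1 ∧ (0 : ℝ) < q.2.2.2
    · filter_upwards [h j q.1 q.2.1 q.2.2.1 q.2.2.2 h1.1 h1.2.1 h1.2.2.1 h1.2.2.2.1 h1.2.2.2.2] with k hk q' hq' _ _ _ _ _
      rw [hd] at hq'
      obtain rfl := Option.some_injective _ hq'
      exact hk
    · refine Eventually.of_forall fun k q' hq' h2 h3 h4 h5 h6 => ?_
      rw [hd] at hq'
      obtain rfl := Option.some_injective _ hq'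
      exact absurd ⟨h2, h3, h4, h5, h6⟩ h1

/-- SLOW LIMITS -/
theorem NHC.lim [Finite κ] {S : ℕ → Sp} {s : ∀ j, MSys (S j) M E ι} {R : ∀ j k, Setoid ((S j).F k).Ω} {V : κ → ι}
    {K K' : ℝ} {J : ℕ → ℕ} (h : Slo S (trC s R V D K K') J) (hK : 0 ≤ K) (hK' : 0 ≤ K')
    (s' : MSys (dsp S J h.lim) M E ι) (R' : ∀ k, Setoid ((dsp S J h.lim).F k).Ω)
    (hs : ∀ᶠ k in UF, ob s' k = ob (s (J k)) k) (hR : ∀ᶠ k in UF, R' k = R (J k) k) :
    NHC s' D R' V K K' := by
  classical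
  have _ : Fintype κ := Fintype.ofFinite κ
  intro c e γ p hc hc1 he hγ hp
  have hB : (0 : ℝ) < (Fintype.card (Fin (E 0) → Bool) : ℝ) ^ Fintype.card (Option κ) := by
    have : 0 < Fintype.card (Fin (E 0) → Bool) := Fintype.card_pos
    positivity
  set B := (Fintype.card (Fin (E 0) → Bool) : ℝ) ^ Fintype.card (Option κ) with hBd
  obtain ⟨q3, h1, h2⟩ := exists_rat_btwn hγ
  obtain ⟨q4, h5, h6⟩ := exists_rat_btwn (div_pos hp hB)
  have h7 : 0 < (q3 : ℝ) - K * e - K' * c := by linarith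
  obtain ⟨q2, h3, h4⟩ : ∃ q2 : ℚ, e < q2 ∧ K * q2 ≤ K * e + ((q3 : ℝ) - K * e - K' * c) / 3 := by
    obtain ⟨q2, a, b⟩ := exists_rat_btwn (show e < e + ((q3 : ℝ) - K * e - K' * c) / (3 * (K + 1)) by
      have : 0 < ((q3 : ℝ) - K * e - K' * c) / (3 * (K + 1)) := div_pos h7 (by linarith)
      linarith)
    refine ⟨q2, a, ?_⟩
    have h8 := mul_le_mul_of_nonneg_left b.le hK
    have h9 : K * (((q3 : ℝ) - K * e - K' * c) / (3 * (K + 1))) ≤ ((q3 : ℝ) - K * e - K' * c) / 3 := by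
      rw [mul_div_assoc', div_le_div_iff₀ (by linarith) (by norm_num)]
      nlinarith
    linarith
  obtain ⟨q1, h8, h9, h10⟩ : ∃ q1 : ℚ, c ≤ q1 ∧ (q1 : ℝ) ≤ 1 ∧ K' * q1 ≤ K' * c + ((q3 : ℝ) - K * e - K' * c) / 3 := by
    rcases hc1.eq_or_lt with h11 | h11
    · refine ⟨1, by rw [h11]; push_cast; rfl, by push_cast; exact le_rfl, ?_⟩
      push_cast
      rw [h11]
      rw [h11] at h7
      linarith
    · have h12 : 0 < ((q3 : ℝ) - K * e - K' * c) / (3 * (K' + 1)) := div_pos h7 (by linarith)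
      obtain ⟨q1, a, b⟩ := exists_rat_btwn (show c < min 1 (c + ((q3 : ℝ) - K * e - K' * c) / (3 * (K' + 1))) from
        lt_min h11 (by linarith))
      refine ⟨q1, a.le, b.le.trans (min_le_left _ _), ?_⟩
      have h13 := mul_le_mul_of_nonneg_left (b.le.trans (min_le_right _ _)) hK'
      have h9 : K' * (((q3 : ℝ) - K * e - K' * c) / (3 * (K' + 1))) ≤ ((q3 : ℝ) - K * e - K' * c) / 3 := by
        rw [mul_div_assoc', div_le_div_iff₀ (by linarith) (by norm_num)]
        nlinarith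
      linarith
  filter_upwards [h.slow (Encodable.encode ((q1, q2, q3, q4) : ℚ × ℚ × ℚ × ℚ)), hs, hR] with k hk a b hE
  have h14 := hasE_win s' R' V h8 k hE
  refine hk (q1, q2, q3, q4) (Encodable.encodek _) (hc.trans_le h8) h9 (he.trans h3) ?_ h5 ?_
  · show K * (q2 : ℝ) + K' * q1 < q3
    linarith
  · have e1 : (fun o => optW (R (J k)) (fun l => wn (s (J k)) q1 (V l)) o k) =
        fun i => optW R' (fun j => wn s' q1 (V j)) i k := by
      funext i
      cases i with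
      | none => exact b.symm
      | some j =>
        show wn (s (J k)) q1 (V j) k = wn s' q1 (V j) k
        rw [wn_ob, wn_ob, a]
        rfl
    have e2 : (s (J k)).Q.v k = s'.Q.v k := (congrArg FMs.Q a).symm
    show HasE ((S (J k)).F k) M D ((s (J k)).Q.v k) (fun o => optW (R (J k)) (fun l => wn (s (J k)) q1 (V l)) o k)
      q2 q3 q4
    rw [e1, e2]
    exact h14.mono h3.le h2.le h6.le

end

end Pool.Agent.Helper14.NHG
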