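import Pool.Agent.Helper38.NSL.He3

/-! NHG: transversality at the windows `c > 0` gives transversality at the window `0` with grid cells. First part:
finer partitions up to a bounded index. -/

set_option autoImplicit false

namespace Pool.Agent.Helper14.NHG

open Finset Filter Topology Matrix Pool.Agent.Helper69.RK Pool.Agent.Helper31.EC Pool.Agent.Helper31.EC.Sp
open Pool.Agent.Helper40.EL
open Pool.Agent.Helper84.MT Pool.Agent.Helper3.LF Pool.Agent.Helper59.LF Pool.Agent.Helper89.LX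
open Pool.Agent.Helper48.NS Pool.Agent.Helper49.MD Pool.Agent.Helper87.NSL Pool.Agent.Helper38.NSL

noncomputable section

variable {M D : ℕ}

theorem ind_nonneg (p : Prop) : 0 ≤ e1_ind p := by
  by_cases h : p
  · rw [e1_ind_pos h]; exact zero_le_one
  · rw [e1_ind_neg h]

theorem exists_supp (F : FSp) : ∃ ω, F.μ ω ≠ 0 := by
  by_contra hc
  have h1 : ∀ ω, F.μ ω = 0 := fun ω => by
    by_contra h
    exact hc ⟨ω, h⟩
  have h2 : ∑ ω, F.μ ω = 1 := F.ms
  rw [Finset.sum_congr rfl fun ω _ => h1 ω, Finset.sum_const_zero] at h2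
  exact zero_ne_one h2

/-- FINER PARTITIONS UP TO A BOUNDED INDEX: if the partitions `W i` are functions of the partitions `W' i` and of an index
with boundedly many values, then close forms known to `W` give close forms known to `W'` on a smaller event -/
theorem hasE_idx {F : FSp} {Q : F.Ω → Fin M → ℝ} {κ : Type} [Fintype κ] {B : Type} [Fintype B]
    {W W' : κ → Setoid F.Ω} {e γ p : ℝ} (β : κ → F.Ω → B)
    (hβ : ∀ i ω ω', F.μ ω ≠ 0 → F.μ ω' ≠ 0 → F.Z ω ω' → W' i ω ω' → β i ω = β i ω' → W i ω ω')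
    (h : HasE F M D Q W e γ p) : HasE F M D Q W' e γ (p / ((Fintype.card B : ℝ) ^ Fintype.card κ)) := by
  classical
  have ecard : ((Fintype.card B : ℝ) ^ Fintype.card κ) = (Fintype.card (κ → B) : ℝ) := by
    rw [Fintype.card_fun]
    push_cast
    rfl
  rw [ecard]
  obtain ⟨A, J, h1, h2, h3, h4⟩ := h
  have hsum : F.pb A ≤ ∑ b : κ → B, F.pb (fun ω => A ω ∧ (fun i => β i ω) = b) := by
    have e1 : ∀ b : κ → B, F.pb (fun ω => A ω ∧ (fun i => β i ω) = b) =
        ∑ ω, F.μ ω * e1_ind (A ω ∧ (fun i => β i ω) = b) := fun b => Pool.Agent.Helper59.GR.pb_ind F _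
    rw [Pool.Agent.Helper59.GR.pb_ind, Finset.sum_congr rfl fun b _ => e1 b, Finset.sum_comm]
    apply Finset.sum_le_sum
    intro ω _
    rw [← Finset.mul_sum]
    apply mul_le_mul_of_nonneg_left _ (F.nn ω)
    by_cases hA : A ω
    · rw [e1_ind_pos hA]
      have h5 := Finset.single_le_sum (f := fun b : κ → B => e1_ind (A ω ∧ (fun i => β i ω) = b))
        (fun b _ => ind_nonneg _) (Finset.mem_univ (fun i => β i ω))
      have h6 : e1_ind (A ω ∧ (fun i => β i ω) = fun i => β i ω) = 1 := e1_ind_pos ⟨hA, rfl⟩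
      linarith
    · rw [e1_ind_neg hA]
      exact Finset.sum_nonneg fun b _ => ind_nonneg _
  obtain ⟨b, hb⟩ : ∃ b : κ → B, p / (Fintype.card (κ → B) : ℝ) ≤ F.pb (fun ω => A ω ∧ (fun i => β i ω) = b) := by
    by_contra hc0
    have hc : ∀ b : κ → B, F.pb (fun ω => A ω ∧ (fun i => β i ω) = b) < p / (Fintype.card (κ → B) : ℝ) := fun b =>
      lt_of_not_ge fun h => hc0 ⟨b, h⟩
    rcases isEmpty_or_nonempty (κ → B) with hE | hE
    · obtain ⟨ω, _⟩ := exists_supp F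
      exact hE.false fun i => β i ω
    have hcard : (0 : ℝ) < Fintype.card (κ → B) := by exact_mod_cast Fintype.card_pos
    have h5 : ∑ b : κ → B, F.pb (fun ω => A ω ∧ (fun i => β i ω) = b) < ∑ _b : κ → B, p / (Fintype.card (κ → B) : ℝ) :=
      Finset.sum_lt_sum_of_nonempty Finset.univ_nonempty fun b _ => hc b
    rw [Finset.sum_const, Finset.card_univ, nsmul_eq_mul, mul_div_cancel₀ _ hcard.ne'] at h5
    linarith
  set s : κ → F.Ω → Set F.Ω := fun i ω => {ω' | F.μ ω' ≠ 0 ∧ F.Z ω ω' ∧ W' i ω ω'} with hs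
  set t : κ → F.Ω → Set F.Ω := fun i ω => {ω' | ω' ∈ s i ω ∧ β i ω' = b i} with ht
  obtain ⟨ω₀, _⟩ := exists_supp F
  set pick : Set F.Ω → F.Ω := fun u => if hu : u.Nonempty then hu.some else ω₀ with hpick
  have hp : ∀ u : Set F.Ω, u.Nonempty → pick u ∈ u := by
    intro u hu
    rw [hpick]
    beta_reduce
    rw [dif_pos hu]
    exact hu.some_mem
  have hcong : ∀ i ω ω', F.Z ω ω' → W' i ω ω' → s i ω = s i ω' := by
    intro i ω ω' hZ hW
    ext τ
    exact ⟨fun ⟨a, c, d⟩ => ⟨a, F.Z.trans (F.Z.symm hZ) c, (W' i).trans ((W' i).symm hW) d⟩,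
      fun ⟨a, c, d⟩ => ⟨a, F.Z.trans hZ c, (W' i).trans hW d⟩⟩
  have hcong' : ∀ i ω ω', F.Z ω ω' → W' i ω ω' → t i ω = t i ω' := by
    intro i ω ω' hZ hW
    rw [ht]
    beta_reduce
    rw [hcong i ω ω' hZ hW]
  set J' : κ → F.Ω → Matrix (Mon M D) (Mon M D) ℝ := fun i ω =>
    if (t i ω).Nonempty then J i (pick (t i ω)) else J i (pick (s i ω)) with hJ'
  have hsn : ∀ i ω, F.μ ω ≠ 0 → (s i ω).Nonempty := fun i ω hω => ⟨ω, hω, F.Z.refl ω, (W' i).refl ω⟩
  have hJA : ∀ ω, F.μ ω ≠ 0 → (fun i => β i ω) = b → ∀ i, J' i ω = J i ω := by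
    intro ω hω hb i
    have h5 : ω ∈ t i ω := ⟨⟨hω, F.Z.refl ω, (W' i).refl ω⟩, congrFun hb i⟩
    have h6 : (t i ω).Nonempty := ⟨ω, h5⟩
    have h7 := hp _ h6
    rw [hJ']
    beta_reduce
    rw [if_pos h6]
    obtain ⟨⟨a, c, d⟩, f⟩ := h7
    refine (h2 i ω _ hω a c ?_).symm
    exact hβ i ω _ hω a c d ((congrFun hb i).trans f.symm)
  refine ⟨fun ω => A ω ∧ (fun i => β i ω) = b, J', hb, ?_, ?_, ?_⟩
  · intro i ω ω' _ _ hZ hW
    rw [hJ']
    beta_reduce
    rw [hcong i ω ω' hZ hW, hcong' i ω ω' hZ hW]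
  · intro i ω hω
    rw [hJ']
    beta_reduce
    by_cases h6 : (t i ω).Nonempty
    · rw [if_pos h6]
      exact h3 i _ (hp _ h6).1.1
    · rw [if_neg h6]
      exact h3 i _ (hp _ (hsn i ω hω)).1
  · rintro ω hω ⟨hA, hb2⟩
    have h5 := hJA ω hω hb2
    refine ⟨fun i j => ?_, fun i => ⟨?_, ?_⟩⟩
    · rw [h5 i, h5 j]
      exact (h4 ω hω hA).1 i j
    · rw [h5 i]
      exact ((h4 ω hω hA).2 i).1
    · have h6 := ((h4 ω hω hA).2 i).2
      have e1 : gxF F Q (J' i) ω = gxF F Q (J i) ω := by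
        unfold gxF
        rw [h5 i]
      rw [e1]
      exact h6

/-- points at distance less than one: the integer parts agree if their parities agree -/
theorem floor_eq_of_par {x y : ℝ} (h : |x - y| < 1) (hp : (⌊x⌋ % 2 = 0) ↔ (⌊y⌋ % 2 = 0)) : ⌊x⌋ = ⌊y⌋ := by
  have h1 := Int.floor_le x
  have h2 := Int.lt_floor_add_one x
  have h3 := Int.floor_le y
  have h4 := Int.lt_floor_add_one y
  rw [abs_lt] at h
  have h5 : (⌊x⌋ : ℝ) < ⌊y⌋ + 2 := by linarith
  have h6 : (⌊y⌋ : ℝ) < ⌊x⌋ + 2 := by linarith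
  have h7 : ⌊x⌋ < ⌊y⌋ + 2 := by exact_mod_cast h5
  have h8 : ⌊y⌋ < ⌊x⌋ + 2 := by exact_mod_cast h6
  omega

end

end Pool.Agent.Helper14.NHG
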