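import Pool.Agent.Helper14.NHG.Idx

/-! NHG: transversality at the windows `c > 0` (with a loss proportional to `c`) gives transversality at the window `0`
together with grid cells of tame mesh. -/

set_option autoImplicit false

namespace Pool.Agent.Helper14.NHG

open Finset Filter Topology Matrix Pool.Agent.Helper69.RK Pool.Agent.Helper31.EC Pool.Agent.Helper31.EC.Sp
open Pool.Agent.Helper40.EL
open Pool.Agent.Helper84.MT Pool.Agent.Helper3.LF Pool.Agent.Helper59.LF Pool.Agent.Helper89.LX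
open Pool.Agent.Helper48.NS Pool.Agent.Helper49.MD Pool.Agent.Helper87.NSL Pool.Agent.Helper38.NSL

noncomputable section

variable {S : Sp} {M D : ℕ} {E : ℕ → ℕ} {ι κ : Type}

/-- TRANSVERSAL AT THE WINDOWS `c > 0`, with a loss proportional to `c` -/
def NHC (s : MSys S M E ι) (D : ℕ) (R : ∀ k, Setoid (S.F k).Ω) (V : κ → ι) (K K' : ℝ) : Prop :=
  ∀ c e γ p : ℝ, 0 < c → c ≤ 1 → 0 < e → K * e + K' * c < γ → 0 < p →
    ∀ᶠ k in UF, ¬ HasE (S.F k) M D (s.Q.v k) (fun i => optW R (fun j => wn s c (V j)) i k) e γ p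

/-- the parity of an integer -/
def par (z : ℤ) : Bool := decide (z % 2 = 0)

theorem floor_eq_of_par' {x y : ℝ} (h : |x - y| < 1) (hp : par ⌊x⌋ = par ⌊y⌋) : ⌊x⌋ = ⌊y⌋ := by
  apply floor_eq_of_par h
  unfold par at hp
  exact decide_eq_decide.mp hp

/-- the parities of the cells of level `c` of the parameter of a leaf -/
def pcell (s : MSys S M E ι) (c : ℝ) (i : ι) (k : ℕ) (ω : (S.F k).Ω) : Fin (E 0) → Bool := fun a =>
  if h : a.val < (s.lf i).e then par ((s.lf i).Y.cellv c k ω ⟨a.val, h⟩) else true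

/-- the window `c` is a function of the window `c' ≥ c` and of the parities -/
theorem wn_of_wn (s : MSys S M E ι) {c c' : ℝ} (hcc : c ≤ c') (i : ι) (k : ℕ) (ω ω' : (S.F k).Ω)
    (h : wn s c' i k ω ω') (hp : pcell s c i k ω = pcell s c i k ω') : wn s c i k ω ω' := by
  refine ⟨h.1, ?_⟩
  show (s.lf i).Y.cellv c k ω = (s.lf i).Y.cellv c k ω'
  funext a
  have h1 : (s.lf i).Y.cellv c' k ω a = (s.lf i).Y.cellv c' k ω' a := congrFun h.2 a
  have h2 : |(s.lf i).Y.v k ω a / S.dl c' k - (s.lf i).Y.v k ω' a / S.dl c' k| < 1 :=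
    Int.abs_sub_lt_one_of_floor_eq_floor h1
  have hd := S.dl_pos c k
  have hd' := S.dl_pos c' k
  have h3 : |(s.lf i).Y.v k ω a / S.dl c k - (s.lf i).Y.v k ω' a / S.dl c k| < 1 := by
    rw [← sub_div, abs_div, abs_of_pos hd', div_lt_one hd'] at h2
    rw [← sub_div, abs_div, abs_of_pos hd, div_lt_one hd]
    exact h2.trans_le (S.dl_anti hcc k)
  have h4 := congrFun hp ⟨a.val, lt_of_lt_of_le a.isLt (s.lf i).he⟩
  unfold pcell at h4
  beta_reduce at h4
  rw [dif_pos a.isLt, dif_pos a.isLt] at h4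
  exact floor_eq_of_par' h3 h4

/-- **NHG**: the windows `0` together with functions which vary by less than one on the atoms of every window `c > 0` -/
theorem nhe_grid [Finite κ] (s : MSys S M E ι) (R : ∀ k, Setoid (S.F k).Ω) (V : κ → ι) {K K' : ℝ}
    (h : NHC s D R V K K') {m : ℕ} (x : κ → ∀ k, (S.F k).Ω → Fin m → ℝ)
    (hx : ∀ c : ℝ, 0 < c → c ≤ 1 → ∀ j, ∀ᶠ k in UF, ∀ ω ω', (S.F k).μ ω ≠ 0 → (S.F k).μ ω' ≠ 0 → (S.F k).Z ω ω' →
      wn s c (V j) k ω ω' → ∀ l, |x j k ω l - x j k ω' l| < 1) :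
    NHE s.Q D (optW R fun j k => wn s 0 (V j) k ⊓ Setoid.ker (fun ω l => ⌊x j k ω l⌋)) K := by
  classical
  intro e γ p he hγ hp
  have _ : Fintype κ := Fintype.ofFinite κ
  obtain ⟨c, hc0, hc1, hc⟩ : ∃ c : ℝ, 0 < c ∧ c ≤ 1 ∧ K * e + K' * c < γ := by
    have h1 : 0 < γ - K * e := by linarith
    have h2 : 0 < |K'| + 1 := by positivity
    have h3 : 0 < (γ - K * e) / (2 * (|K'| + 1)) := by positivity
    refine ⟨min 1 ((γ - K * e) / (2 * (|K'| + 1))), lt_min one_pos h3, min_le_left _ _, ?_⟩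
    have h4 : min 1 ((γ - K * e) / (2 * (|K'| + 1))) * (|K'| + 1) ≤ (γ - K * e) / 2 := by
      have h5 := mul_le_mul_of_nonneg_right (min_le_right 1 ((γ - K * e) / (2 * (|K'| + 1)))) h2.le
      refine h5.trans (le_of_eq ?_)
      field_simp
    have h6 : 0 < min 1 ((γ - K * e) / (2 * (|K'| + 1))) := lt_min one_pos h3
    have h7 : K' * min 1 ((γ - K * e) / (2 * (|K'| + 1))) ≤ |K'| * min 1 ((γ - K * e) / (2 * (|K'| + 1))) :=
      mul_le_mul_of_nonneg_right (le_abs_self _) h6.le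
    nlinarith
  have hcard : (0 : ℝ) < (Fintype.card ((Fin m → Bool) × (Fin (E 0) → Bool)) : ℝ) ^ Fintype.card (Option κ) := by
    have : 0 < Fintype.card ((Fin m → Bool) × (Fin (E 0) → Bool)) := Fintype.card_pos
    positivity
  have hall : ∀ᶠ k in UF, ∀ j, ∀ ω ω', (S.F k).μ ω ≠ 0 → (S.F k).μ ω' ≠ 0 → (S.F k).Z ω ω' →
      wn s c (V j) k ω ω' → ∀ l, |x j k ω l - x j k ω' l| < 1 := eventually_all.mpr fun j => hx c hc0 hc1 j
  filter_upwards [h c e γ (p / (Fintype.card ((Fin m → Bool) × (Fin (E 0) → Bool)) : ℝ) ^ Fintype.card (Option κ))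
    hc0 hc1 he hc (div_pos hp hcard), hall] with k a b hE
  apply a
  refine hasE_idx (B := (Fin m → Bool) × (Fin (E 0) → Bool))
    (W := fun i => optW R (fun j k => wn s 0 (V j) k ⊓ Setoid.ker fun ω l => ⌊x j k ω l⌋) i k)
    (W' := fun i => optW R (fun j => wn s c (V j)) i k) (fun i ω => match i with
    | none => (fun _ => true, fun _ => true)
    | some j => (fun l => par ⌊x j k ω l⌋, pcell s 0 (V j) k ω)) (fun i ω ω' h1 h2 h3 h4 h5 => ?_) hE
  cases i with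
  | none => exact h4
  | some j =>
    have h6 : (fun l => par ⌊x j k ω l⌋) = fun l => par ⌊x j k ω' l⌋ := congrArg Prod.fst h5
    have h7 : pcell s 0 (V j) k ω = pcell s 0 (V j) k ω' := congrArg Prod.snd h5
    refine ⟨wn_of_wn s hc0.le (V j) k ω ω' h4 h7, ?_⟩
    show (fun l => ⌊x j k ω l⌋) = fun l => ⌊x j k ω' l⌋
    funext l
    exact floor_eq_of_par' (b j ω ω' h1 h2 h3 h4 l) (congrFun h6 l)

/-- functions which are Lipschitz functions of the point with a tame constant, given the base -/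
theorem osc_of_lip (s : MSys S M E ι) (i : ι) {m : ℕ} (x : ∀ k, (S.F k).Ω → Fin m → ℝ) {N : ℕ → ℝ} (hN : S.Sub N)
    (hx : ∀ᶠ k in UF, ∀ ω ω', (S.F k).μ ω ≠ 0 → (S.F k).μ ω' ≠ 0 → (S.F k).Z ω ω' → ∀ δ : ℝ,
      (∀ j, |s.Q.v k ω j - s.Q.v k ω' j| ≤ δ) → ∀ l, |x k ω l - x k ω' l| ≤ N k * δ) (c : ℝ) (hc : 0 < c)
    (hc1 : c ≤ 1) : ∀ᶠ k in UF, ∀ ω ω', (S.F k).μ ω ≠ 0 → (S.F k).μ ω' ≠ 0 → (S.F k).Z ω ω' →
      wn s c i k ω ω' → ∀ l, |x k ω l - x k ω' l| < 1 := by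
  obtain ⟨L, hL, hb⟩ := (s.lf i).win_close hc.le hc1
  filter_upwards [hx, hb, hN.1, hL.1, (hN.mul hL).eventually_le (half_pos hc)] with k h1 h2 h3 h4 h5 ω ω' a b z hw l
  have h6 := h1 ω ω' a b z _ (h2 ω ω' a b z hw) l
  refine h6.trans_lt ?_
  have h7 : S.dl c k = 2 ^ (-(c * (S.F k).n)) := rfl
  have hn := (S.F k).pos
  calc N k * (L k * S.dl c k) = (N k * L k) * S.dl c k := by ring
    _ ≤ 2 ^ (c / 2 * (S.F k).n) * 2 ^ (-(c * (S.F k).n)) := by
        rw [h7]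
        exact mul_le_mul_of_nonneg_right (by linarith) (by positivity)
    _ = 2 ^ (-(c / 2 * (S.F k).n)) := by
        rw [← Real.rpow_add (by norm_num)]
        congr 1
        ring
    _ < 1 := by
        apply Real.rpow_lt_one_of_one_lt_of_neg (by norm_num)
        have := mul_pos (half_pos hc) hn
        linarith

/-- **NHG, grid cells of the point** (tame mesh, any shifts) -/
theorem nhe_gridQ [Finite κ] (s : MSys S M E ι) (R : ∀ k, Setoid (S.F k).Ω) (V : κ → ι) {K K' : ℝ}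
    (h : NHC s D R V K K') (N : κ → ℕ → ℝ) (hN : ∀ j, S.Sub (N j)) (sh : κ → ℕ → Fin M → ℝ) :
    NHE s.Q D (optW R fun j k => wn s 0 (V j) k ⊓ Setoid.ker (fun ω l => ⌊N j k * s.Q.v k ω l + sh j k l⌋)) K := by
  refine nhe_grid s R V h (fun j k ω l => N j k * s.Q.v k ω l + sh j k l) fun c hc hc1 j => ?_
  refine osc_of_lip s (V j) _ (hN j) ?_ c hc hc1
  filter_upwards [(hN j).1] with k hk ω ω' _ _ _ δ hδ l
  have e1 : N j k * s.Q.v k ω l + sh j k l - (N j k * s.Q.v k ω' l + sh j k l) =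
      N j k * (s.Q.v k ω l - s.Q.v k ω' l) := by ring
  rw [e1, abs_mul, abs_of_nonneg hk]
  exact mul_le_mul_of_nonneg_left (hδ l) hk

end

end Pool.Agent.Helper14.NHG
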